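import Pool.Agent.TH656.Bx.Complete

/-!
# The graph always has a box representation in dimension five
-/

set_option autoImplicit false

namespace Pool.Agent.Y605.BX

open Pool.Agent.TH656 Pool.Agent.TH656.Bx

/-- The room for an item. -/
def W (a : List ℕ) : ℕ := 3 * a.sum + 2

theorem getD_W (a : List ℕ) (i : ℕ) : 3 * a.getD i 0 + 2 ≤ W a := by
  unfold W
  have h : a.getD i 0 ≤ a.sum := by
    by_cases hi : i < a.length
    · rw [List.getD_eq_getElem _ _ hi]
      exact List.le_sum_of_mem (List.getElem_mem hi)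
    · rw [List.getD_eq_default _ _ (by omega)]
      omega
  omega

theorem item_lt {a : List ℕ} {i i' q : ℕ} (hii : i < i') (hq : q < 3 * a.getD i 0) :
    i * W a + q + 2 ≤ i' * W a := by
  have h1 := getD_W a i
  have h2 : (i + 1) * W a ≤ i' * W a := Nat.mul_le_mul_right _ hii
  have h3 : (i + 1) * W a = i * W a + W a := by ring
  omega

section

variable (a : List ℕ) (b B : ℕ)

/-- left ends -/
def cl5 (v : Vt) (k : ℕ) : ℕ :=
  if k < 3 then cl (fun _ => 0) v k
  else if k = 3 then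
    (if v.1 = 0 then 0 else if v.1 = 1 then 3 else if v.1 = 2 then 2 * v.2.1 else 3)
  else (if v.1 = 3 then 2 * (v.2.1 * W a + v.2.2) + 2 else 0)

/-- right ends -/
def cr5 (v : Vt) (k : ℕ) : ℕ :=
  if k < 3 then cr a b B (fun _ => 0) v k
  else if k = 3 then
    (if v.1 = 0 then 2 * (b * (6 * B + 1)) + 2 else if v.1 = 1 then 2 * (b * (6 * B + 1)) - 1
      else if v.1 = 2 then 2 * v.2.1 + 2 else 2 * (b * (6 * B + 1)) - 1)
  else (if v.1 = 3 then 2 * (v.2.1 * W a + v.2.2) + 4 else if v.1 = 2 then 0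
    else 2 * (a.length * W a) + 4)

/-- the boxes meet -/
def Mt5 (u v : Vt) : Prop := ∀ k < 5, cl5 a u k ≤ cr5 a b B v k ∧ cl5 a v k ≤ cr5 a b B u k

variable {a b B}

theorem Mt5.symm {u v : Vt} (h : Mt5 a b B u v) : Mt5 a b B v u := fun k hk => (h k hk).symm

theorem mt5_iff {u v : Vt} : Mt5 a b B u v ↔
    (∀ k < 3, cl (fun _ => 0) u k ≤ cr a b B (fun _ => 0) v k ∧
      cl (fun _ => 0) v k ≤ cr a b B (fun _ => 0) u k) ∧
    (cl5 a u 3 ≤ cr5 a b B v 3 ∧ cl5 a v 3 ≤ cr5 a b B u 3) ∧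
    (cl5 a u 4 ≤ cr5 a b B v 4 ∧ cl5 a v 4 ≤ cr5 a b B u 4) := by
  have e1 : ∀ w : Vt, ∀ k < 3, cl5 a w k = cl (fun _ => 0) w k := by
    intro w k hk
    simp only [cl5, hk, if_true]
  have e2 : ∀ w : Vt, ∀ k < 3, cr5 a b B w k = cr a b B (fun _ => 0) w k := by
    intro w k hk
    simp only [cr5, hk, if_true]
  constructor
  · intro h
    refine ⟨fun k hk => ?_, h 3 (by norm_num), h 4 (by norm_num)⟩
    have h1 := h k (by omega)
    rwa [e1 u k hk, e1 v k hk, e2 u k hk, e2 v k hk] at h1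
  · intro h k hk
    have h5 : k < 3 ∨ k = 3 ∨ k = 4 := by omega
    rcases h5 with h5 | rfl | rfl
    · rw [e1 u k h5, e1 v k h5, e2 u k h5, e2 v k h5]
      exact h.1 k h5
    · exact h.2.1
    · exact h.2.2

theorem mt5_of_mt {u v : Vt} (hu : u.1 ≤ 2) (hv : v.1 ≤ 2) :
    Mt5 a b B u v ↔ Mt a b B (fun _ => 0) u v := by
  rw [mt5_iff, mt_iff]
  have e1 : ∀ w : Vt, w.1 ≤ 2 → cl5 a w 3 = cl (fun _ => 0) w 3 := by
    intro w hw
    simp only [cl5, cl]
    simp
    split_ifs <;> omega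
  have e2 : ∀ w : Vt, w.1 ≤ 2 → cr5 a b B w 3 = cr a b B (fun _ => 0) w 3 := by
    intro w hw
    simp only [cr5, cr]
    simp [-List.getD_eq_getElem?_getD]
    split_ifs <;> omega
  have e3 : ∀ w : Vt, w.1 ≤ 2 → cl5 a w 4 = 0 := by
    intro w hw
    have : w.1 ≠ 3 := by omega
    simp [cl5, this]
  rw [e1 u hu, e1 v hv, e2 u hu, e2 v hv, e3 u hu, e3 v hv]
  constructor
  · intro h
    exact ⟨h.1, h.2.1⟩
  · intro h
    exact ⟨h.1, h.2, Nat.zero_le _, Nat.zero_le _⟩

theorem mt5_hi {τ j i q : ℕ} (hτ : τ < 3) (hj : j < 3) (hi : i < a.length)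
    (hq : q < 3 * a.getD i 0) (hb : 2 ≤ b * (6 * B + 1)) :
    ¬ (j = 0 ∧ q % 3 = τ) ↔ Mt5 a b B (0, τ, j) (3, i, q) := by
  rw [mt5_iff]
  have hbd := item_lt hi hq
  constructor
  · intro h
    refine ⟨fun k hk => ?_, ?_, ?_⟩
    · simp only [cl, cr, hk, if_true]
      by_cases h1 : τ = k
      · subst h1
        by_cases h2 : q % 3 = τ
        · have : j ≠ 0 := fun hc => h ⟨hc, h2⟩
          simp [h2]
          omega
        · simp [h2]
          omega
      · simp [h1]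
        split_ifs <;> omega
    · simp [cl5, cr5]
      omega
    · simp [cl5, cr5]
      omega
  · rintro ⟨h, -⟩ ⟨rfl, h2⟩
    have h1 := h τ hτ
    simp [cl, cr, hτ, h2] at h1

theorem mt5_zi {i q : ℕ} (hi : i < a.length) (hq : q < 3 * a.getD i 0)
    (hb : 2 ≤ b * (6 * B + 1)) : Mt5 a b B (1, 0, 0) (3, i, q) := by
  rw [mt5_iff]
  have hbd := item_lt hi hq
  refine ⟨fun k hk => ?_, ?_, ?_⟩
  · simp only [cl, cr, hk, if_true]
    simp [-List.getD_eq_getElem?_getD]
    split_ifs <;> omega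
  · simp [cl5, cr5]
    omega
  · simp [cl5, cr5]
    omega

theorem mt5_fi {m i q : ℕ} : ¬ Mt5 a b B (2, m, 0) (3, i, q) := by
  rw [mt5_iff]
  rintro ⟨-, -, -, h⟩
  simp [cl5, cr5] at h

theorem mt5_ii {i q i' q' : ℕ} (hq : q < 3 * a.getD i 0) (hq' : q' < 3 * a.getD i' 0)
    (hb : 2 ≤ b * (6 * B + 1)) (hne : ((3, i, q) : Vt) ≠ (3, i', q')) :
    (i = i' ∧ (q' = q + 1 ∨ q = q' + 1)) ↔ Mt5 a b B (3, i, q) (3, i', q') := by
  rw [mt5_iff]
  constructor
  · rintro ⟨rfl, h⟩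
    refine ⟨fun k hk => ?_, ?_, ?_⟩
    · simp only [cl, cr, hk, if_true]
      simp [-List.getD_eq_getElem?_getD]
      constructor <;> split_ifs <;> omega
    · simp [cl5, cr5]
      omega
    · simp [cl5, cr5]
      omega
  · rintro ⟨-, -, h⟩
    simp [cl5, cr5] at h
    rcases lt_trichotomy i i' with hii | hii | hii
    · have := item_lt hii hq
      omega
    · subst hii
      have hqq : q ≠ q' := fun hc => hne (by rw [hc])
      refine ⟨rfl, ?_⟩
      omega
    · have := item_lt hii hq'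
      omega

/-- **Dimension five.** -/
theorem five (hb : 1 ≤ b) (hB : 1 ≤ B) : HasBoxRep (gr a b B).graph 5 := by
  have hM : 7 ≤ b * (6 * B + 1) := by
    calc 7 = 1 * 7 := by norm_num
      _ ≤ b * (6 * B + 1) := Nat.mul_le_mul hb (by omega)
  refine (lrep_iff (nodup_vl a b B)).2 ⟨fun v k => (cl5 a v k : ℝ),
    fun v k => (cr5 a b B v k : ℝ), ?_, ?_⟩
  · intro v hv k
    dsimp only
    rw [Nat.cast_le]
    obtain ⟨k, hk⟩ := k
    dsimp only
    obtain ⟨n, i, j⟩ := v
    rcases mem_vl.1 hv with h | h | h | h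
    · obtain ⟨rfl, h1, h2⟩ := h
      simp only [cl5, cr5, cl, cr]
      simp [-List.getD_eq_getElem?_getD]
      split_ifs <;> omega
    · obtain ⟨rfl, rfl, rfl⟩ := (by simpa using h : n = 1 ∧ i = 0 ∧ j = 0)
      simp only [cl5, cr5, cl, cr]
      simp [-List.getD_eq_getElem?_getD]
      split_ifs <;> omega
    · obtain ⟨rfl, h1, h2⟩ := h
      simp only [cl5, cr5, cl, cr]
      simp [-List.getD_eq_getElem?_getD]
      split_ifs <;> omega
    · obtain ⟨rfl, h1, h2⟩ := h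
      dsimp only at h1 h2
      simp only [cl5, cr5, cl, cr]
      simp [-List.getD_eq_getElem?_getD]
      split_ifs <;> omega
  · have key : ∀ u ∈ vl a b B, ∀ v ∈ vl a b B, u ≠ v → (Adj b B u v ↔ Mt5 a b B u v) := by
      intro u hu v hv huv
      have hsym : ∀ u v : Vt, (Adj b B v u ↔ Mt5 a b B v u) → (Adj b B u v ↔ Mt5 a b B u v) :=
        fun u v h => ⟨fun h1 => (h.1 h1.symm).symm, fun h1 => (h.2 h1.symm).symm⟩
      obtain ⟨n, i, j⟩ := u
      obtain ⟨n', i', j'⟩ := v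
      rcases mem_vl.1 hu with h | h | h | h <;> rcases mem_vl.1 hv with h' | h' | h' | h'
      · obtain ⟨rfl, h1, h2⟩ := h
        obtain ⟨rfl, h1', h2'⟩ := h'
        rw [adj_hh, mt5_of_mt (by simp) (by simp)]
        exact mt_hh h1 h2 h1' h2' huv
      · obtain ⟨rfl, h1, h2⟩ := h
        obtain ⟨rfl, rfl, rfl⟩ := (by simpa using h' : n' = 1 ∧ i' = 0 ∧ j' = 0)
        rw [mt5_of_mt (by simp) (by simp)]
        exact ⟨fun _ => mt_hz (by omega) h2, fun _ => adj_hz⟩
      · obtain ⟨rfl, h1, h2⟩ := h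
        obtain ⟨rfl, h1', h2'⟩ := h'
        dsimp only at h2'
        subst h2'
        rw [adj_hf, mt5_of_mt (by simp) (by simp)]
        exact mt_hf h1 h2 h1'
      · obtain ⟨rfl, h1, h2⟩ := h
        obtain ⟨rfl, h1', h2'⟩ := h'
        rw [adj_hi]
        exact mt5_hi h1 h2 h1' h2' (by omega)
      · obtain ⟨rfl, rfl, rfl⟩ := (by simpa using h : n = 1 ∧ i = 0 ∧ j = 0)
        obtain ⟨rfl, h1', h2'⟩ := h'
        refine hsym _ _ ?_
        rw [mt5_of_mt (by simp) (by simp)]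
        exact ⟨fun _ => mt_hz (by omega) h2', fun _ => adj_hz⟩
      · exact absurd (h.trans h'.symm) huv
      · obtain ⟨rfl, rfl, rfl⟩ := (by simpa using h : n = 1 ∧ i = 0 ∧ j = 0)
        obtain ⟨rfl, h1', h2'⟩ := h'
        dsimp only at h2'
        subst h2'
        rw [adj_zf, mt5_of_mt (by simp) (by simp)]
        exact mt_zf (by omega)
      · obtain ⟨rfl, rfl, rfl⟩ := (by simpa using h : n = 1 ∧ i = 0 ∧ j = 0)
        obtain ⟨rfl, h1', h2'⟩ := h'
        exact ⟨fun _ => mt5_zi h1' h2' (by omega), fun _ => adj_zi⟩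
      · obtain ⟨rfl, h1, h2⟩ := h
        dsimp only at h2
        subst h2
        obtain ⟨rfl, h1', h2'⟩ := h'
        refine hsym _ _ ?_
        rw [adj_hf, mt5_of_mt (by simp) (by simp)]
        exact mt_hf h1' h2' h1
      · obtain ⟨rfl, h1, h2⟩ := h
        dsimp only at h2
        subst h2
        obtain ⟨rfl, rfl, rfl⟩ := (by simpa using h' : n' = 1 ∧ i' = 0 ∧ j' = 0)
        refine hsym _ _ ?_
        rw [adj_zf, mt5_of_mt (by simp) (by simp)]
        exact mt_zf (by omega)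
      · obtain ⟨rfl, h1, h2⟩ := h
        dsimp only at h2
        subst h2
        obtain ⟨rfl, h1', h2'⟩ := h'
        dsimp only at h2'
        subst h2'
        rw [adj_ff, mt5_of_mt (by simp) (by simp)]
        exact mt_ff (fun hc => huv (by rw [hc]))
      · obtain ⟨rfl, h1, h2⟩ := h
        dsimp only at h2
        subst h2
        obtain ⟨rfl, h1', h2'⟩ := h'
        exact ⟨fun hc => absurd hc adj_fi, fun hc => absurd hc mt5_fi⟩
      · obtain ⟨rfl, h1, h2⟩ := h
        obtain ⟨rfl, h1', h2'⟩ := h'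
        refine hsym _ _ ?_
        rw [adj_hi]
        exact mt5_hi h1' h2' h1 h2 (by omega)
      · obtain ⟨rfl, h1, h2⟩ := h
        obtain ⟨rfl, rfl, rfl⟩ := (by simpa using h' : n' = 1 ∧ i' = 0 ∧ j' = 0)
        exact hsym _ _ ⟨fun _ => mt5_zi h1 h2 (by omega), fun _ => adj_zi⟩
      · obtain ⟨rfl, h1, h2⟩ := h
        obtain ⟨rfl, h1', h2'⟩ := h'
        dsimp only at h2'
        subst h2'
        exact hsym _ _ ⟨fun hc => absurd hc adj_fi, fun hc => absurd hc mt5_fi⟩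
      · obtain ⟨rfl, h1, h2⟩ := h
        obtain ⟨rfl, h1', h2'⟩ := h'
        rw [adj_ii]
        exact mt5_ii h2 h2' (by omega) huv
    intro u hu v hv huv
    refine (key u hu v hv huv).trans ?_
    unfold Mt5
    constructor
    · intro h k
      dsimp only
      rw [Nat.cast_le, Nat.cast_le]
      exact h k k.2
    · intro h k hk
      have h1 := h ⟨k, hk⟩
      dsimp only at h1
      rwa [Nat.cast_le, Nat.cast_le] at h1

end

end Pool.Agent.Y605.BX
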