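import Pool.Agent.TH656.Bx.Constr

/-!
# Joining two nonadjacent vertices to a graph raises the boxicity by one
-/

set_option autoImplicit false

namespace Pool.Agent.Y605.BX

open Pool.Agent.TH656 Pool.Agent.TH656.Bx

/-- The boxicity of the join with two nonadjacent vertices. -/
theorem join_iff {l : List Vt} {adj : Vt → Vt → Bool} {d : ℕ} {x y : Vt} (hl : l.Nodup)
    (hl2 : (l ++ [x, y]).Nodup) (hxy : ¬ (adj x y = true ∨ adj y x = true))
    (hx : ∀ v ∈ l, adj x v = true ∨ adj v x = true)
    (hy : ∀ v ∈ l, adj y v = true ∨ adj v y = true) :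
    HasBoxRep (lgraph (l ++ [x, y]) adj).graph (d + 1) ↔ HasBoxRep (lgraph l adj).graph d := by
  classical
  have hne : x ≠ y := by
    intro h
    subst h
    have := (List.nodup_append.1 hl2).2.1
    simp at this
  have hxl : x ∉ l := fun h => by
    have := (List.nodup_append.1 hl2).2.2 x h x (by simp)
    exact this rfl
  have hyl : y ∉ l := fun h => by
    have := (List.nodup_append.1 hl2).2.2 y h y (by simp)
    exact this rfl
  rw [lrep_iff hl, lrep_iff hl2]
  constructor
  · rintro ⟨L, R, h1, h2⟩
    have mx : x ∈ l ++ [x, y] := by simp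
    have my : y ∈ l ++ [x, y] := by simp
    have ml : ∀ v ∈ l, v ∈ l ++ [x, y] := fun v hv => List.mem_append_left _ hv
    have h3 : ¬ ∀ k, L x k ≤ R y k ∧ L y k ≤ R x k := by
      rw [← h2 x mx y my hne]
      exact hxy
    push Not at h3
    obtain ⟨k, hk⟩ := h3
    have key : ∀ u ∈ l, ∀ v ∈ l, L u k ≤ R v k := by
      intro u hu v hv
      have ux := (h2 x mx u (ml u hu) (fun h => hxl (h ▸ hu))).1 (hx u hu) k
      have uy := (h2 y my u (ml u hu) (fun h => hyl (h ▸ hu))).1 (hy u hu) k
      have vx := (h2 x mx v (ml v hv) (fun h => hxl (h ▸ hv))).1 (hx v hv) k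
      have vy := (h2 y my v (ml v hv) (fun h => hyl (h ▸ hv))).1 (hy v hv) k
      by_cases hc : L x k ≤ R y k
      · have := hk hc
        linarith [ux.1, ux.2, uy.1, uy.2, vx.1, vx.2, vy.1, vy.2]
      · rw [not_le] at hc
        linarith [ux.1, ux.2, uy.1, uy.2, vx.1, vx.2, vy.1, vy.2]
    refine ⟨fun v j => L v (k.succAbove j), fun v j => R v (k.succAbove j),
      fun v hv j => h1 v (ml v hv) _, fun u hu v hv huv => ?_⟩
    rw [h2 u (ml u hu) v (ml v hv) huv]
    constructor
    · intro h j
      exact h _
    · intro h i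
      rcases Fin.eq_self_or_eq_succAbove k i with rfl | ⟨j, rfl⟩
      · exact ⟨key u hu v hv, key v hv u hu⟩
      · exact h j
  · rintro ⟨L, R, h1, h2⟩
    obtain ⟨M, hM⟩ : ∃ M : ℝ, ∀ v ∈ l, ∀ k, -M ≤ L v k ∧ R v k ≤ M := by
      refine ⟨∑ v ∈ l.toFinset, ∑ k, (|L v k| + |R v k|), fun v hv k => ?_⟩
      have e1 : |L v k| + |R v k| ≤ ∑ k, (|L v k| + |R v k|) :=
        Finset.single_le_sum (f := fun k => |L v k| + |R v k|) (fun _ _ => by positivity)
          (Finset.mem_univ k)
      have e2 : ∑ k, (|L v k| + |R v k|) ≤ ∑ v ∈ l.toFinset, ∑ k, (|L v k| + |R v k|) :=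
        Finset.single_le_sum (f := fun v => ∑ k, (|L v k| + |R v k|))
          (fun _ _ => Finset.sum_nonneg fun _ _ => by positivity) (List.mem_toFinset.2 hv)
      have e3 := neg_abs_le (L v k)
      have e4 := le_abs_self (R v k)
      have e5 := abs_nonneg (L v k)
      have e6 := abs_nonneg (R v k)
      constructor <;> linarith
    refine ⟨fun v => if v = x then Fin.cons 0 (fun _ => -|M|) else
        if v = y then Fin.cons 1 (fun _ => -|M|) else Fin.cons 0 (L v),
      fun v => if v = x then Fin.cons 0 (fun _ => |M|) else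
        if v = y then Fin.cons 1 (fun _ => |M|) else Fin.cons 1 (R v), ?_, ?_⟩
    · intro v hv k
      have ha := abs_nonneg M
      by_cases hvx : v = x
      · simp only [hvx, if_true]
        refine Fin.cases ?_ (fun k => ?_) k
        · simp
        · simp only [Fin.cons_succ]
          linarith
      · by_cases hvy : v = y
        · subst hvy
          simp only [if_neg hvx, if_true]
          refine Fin.cases ?_ (fun k => ?_) k
          · simp
          · simp only [Fin.cons_succ]
            linarith
        · have hvl : v ∈ l := by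
            rw [List.mem_append] at hv
            rcases hv with h | h
            · exact h
            · simp only [List.mem_cons, List.not_mem_nil, or_false] at h
              exact absurd h (by tauto)
          simp only [if_neg hvx, if_neg hvy]
          refine Fin.cases ?_ (fun k => ?_) k
          · simp
          · simpa using h1 v hvl k
    · have hMM := le_abs_self M
      have hb : ∀ v ∈ l, ∀ k, -|M| ≤ L v k ∧ R v k ≤ |M| := fun v hv k =>
        ⟨le_trans (neg_le_neg hMM) (hM v hv k).1, (hM v hv k).2.trans hMM⟩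
      have hb2 : ∀ v ∈ l, ∀ k, L v k ≤ |M| ∧ -|M| ≤ R v k := fun v hv k =>
        ⟨(h1 v hv k).trans (hb v hv k).2, (hb v hv k).1.trans (h1 v hv k)⟩
      have ha := abs_nonneg M
      have cas : ∀ v ∈ l ++ [x, y], v ∈ l ∨ v = x ∨ v = y := by
        intro v hv
        rw [List.mem_append] at hv
        simpa using hv
      intro u hu v hv huv
      rcases cas u hu with gu | rfl | rfl <;> rcases cas v hv with gv | rfl | rfl
      · have a1 : u ≠ x := fun h => hxl (h ▸ gu)
        have a2 : u ≠ y := fun h => hyl (h ▸ gu)
        have a3 : v ≠ x := fun h => hxl (h ▸ gv)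
        have a4 : v ≠ y := fun h => hyl (h ▸ gv)
        simp only [if_neg a1, if_neg a2, if_neg a3, if_neg a4]
        rw [Fin.forall_fin_succ, h2 u gu v gv huv]
        simp
      · have a1 : u ≠ v := huv
        have a2 : u ≠ y := fun h => hyl (h ▸ gu)
        simp only [if_neg a1, if_neg a2, if_true]
        rw [Fin.forall_fin_succ]
        refine ⟨fun _ => ⟨by simp, fun k => ?_⟩, fun _ => (hx u gu).symm⟩
        simpa using ⟨(hb2 u gu k).1, (hb2 u gu k).2⟩
      · have a1 : u ≠ x := fun h => hxl (h ▸ gu)
        have a2 : u ≠ v := huv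
        simp only [if_neg a1, if_neg a2, if_neg hne.symm, if_true]
        rw [Fin.forall_fin_succ]
        refine ⟨fun _ => ⟨by simp, fun k => ?_⟩, fun _ => (hy u gu).symm⟩
        simpa using ⟨(hb2 u gu k).1, (hb2 u gu k).2⟩
      · have a3 : v ≠ u := huv.symm
        have a4 : v ≠ y := fun h => hyl (h ▸ gv)
        simp only [if_neg a3, if_neg a4, if_true]
        rw [Fin.forall_fin_succ]
        refine ⟨fun _ => ⟨by simp, fun k => ?_⟩, fun _ => hx v gv⟩
        simpa using ⟨(hb2 v gv k).2, (hb2 v gv k).1⟩
      · exact absurd rfl huv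
      · simp only [if_true, if_neg hne.symm]
        refine ⟨fun h => absurd h hxy, fun h => ?_⟩
        have := (h 0).2
        simp at this
        linarith
      · have a3 : v ≠ x := fun h => hxl (h ▸ gv)
        have a4 : v ≠ u := huv.symm
        simp only [if_neg a3, if_neg a4, if_neg hne.symm, if_true]
        rw [Fin.forall_fin_succ]
        refine ⟨fun _ => ⟨by simp, fun k => ?_⟩, fun _ => hy v gv⟩
        simpa using ⟨(hb2 v gv k).2, (hb2 v gv k).1⟩
      · simp only [if_true, if_neg hne.symm]
        refine ⟨fun h => absurd h.symm hxy, fun h => ?_⟩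
        have := (h 0).1
        simp at this
        linarith
      · exact absurd rfl huv

/-- The additional vertices. -/
def extra (c : ℕ) : List Vt := (List.range c).flatMap (fun i => [(4, i, 0), (4, i, 1)])

/-- The adjacency with the additional vertices. -/
def adE (ad : Vt → Vt → Bool) (u v : Vt) : Bool :=
  (decide (u.1 = 4) && !(decide (v.1 = 4) && decide (v.2.1 = u.2.1))) ||
  (!decide (u.1 = 4) && !decide (v.1 = 4) && ad u v)

theorem mem_extra {c : ℕ} {v : Vt} : v ∈ extra c ↔ v.1 = 4 ∧ v.2.1 < c ∧ v.2.2 < 2 := by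
  obtain ⟨k, i, j⟩ := v
  unfold extra
  simp only [List.mem_flatMap, List.mem_range, List.mem_cons, List.not_mem_nil, or_false,
    Prod.mk.injEq]
  constructor
  · rintro ⟨m, h1, h2 | h2⟩ <;> omega
  · rintro ⟨h1, h2, h3⟩
    exact ⟨i, h2, by omega⟩

theorem extra_succ (c : ℕ) : extra (c + 1) = extra c ++ [(4, c, 0), (4, c, 1)] := by
  unfold extra
  rw [List.range_succ, List.flatMap_append]
  simp

theorem nodup_extra (c : ℕ) : (extra c).Nodup := by
  induction c with
  | zero => simp [extra]
  | succ c ih =>
    rw [extra_succ, List.nodup_append]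
    refine ⟨ih, by simp, ?_⟩
    intro v hv w hw h
    subst h
    have h1 := mem_extra.1 hv
    simp only [List.mem_cons, List.not_mem_nil, or_false] at hw
    rcases hw with rfl | rfl
    · have := h1.2.1
      dsimp only at this
      omega
    · have := h1.2.1
      dsimp only at this
      omega

theorem length_extra (c : ℕ) : (extra c).length = 2 * c := by
  induction c with
  | zero => simp [extra]
  | succ c ih =>
    rw [extra_succ, List.length_append, ih]
    simp
    omega

theorem nodup_ext {l : List Vt} (hl : l.Nodup) (h4 : ∀ v ∈ l, v.1 ≠ 4) (c : ℕ) :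
    (l ++ extra c).Nodup := by
  rw [List.nodup_append]
  refine ⟨hl, nodup_extra c, ?_⟩
  intro v hv w hw h
  subst h
  exact h4 v hv (mem_extra.1 hw).1

/-- The boxicity with `2 c` additional vertices. -/
theorem extra_iff {l : List Vt} {adj : Vt → Vt → Bool} {d : ℕ} (hl : l.Nodup)
    (h4 : ∀ v ∈ l, v.1 ≠ 4) (c : ℕ) :
    HasBoxRep (lgraph (l ++ extra c) (adE adj)).graph (d + c) ↔
      HasBoxRep (lgraph l adj).graph d := by
  induction c with
  | zero =>
    have e : extra 0 = [] := by simp [extra]
    rw [e, List.append_nil, lrep_iff hl, lrep_iff hl]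
    have key : ∀ u ∈ l, ∀ v ∈ l, ((adE adj u v = true ∨ adE adj v u = true) ↔
        (adj u v = true ∨ adj v u = true)) := by
      intro u hu v hv
      have h1 := h4 u hu
      have h2 := h4 v hv
      unfold adE
      simp [h1, h2]
    constructor
    · rintro ⟨L, R, h1, h2⟩
      exact ⟨L, R, h1, fun u hu v hv huv => (key u hu v hv).symm.trans (h2 u hu v hv huv)⟩
    · rintro ⟨L, R, h1, h2⟩
      exact ⟨L, R, h1, fun u hu v hv huv => (key u hu v hv).trans (h2 u hu v hv huv)⟩
  | succ c ih =>
    rw [← ih]
    have hn := nodup_ext hl h4 (c + 1)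
    rw [extra_succ, ← List.append_assoc] at hn ⊢
    refine join_iff (nodup_ext hl h4 c) hn ?_ ?_ ?_
    · unfold adE
      simp
    · intro v hv
      left
      rw [List.mem_append] at hv
      rcases hv with hv | hv
      · have h1 := h4 v hv
        unfold adE
        simp [h1]
      · have h1 := mem_extra.1 hv
        have h2 : v.2.1 ≠ c := by omega
        unfold adE
        simp [h1.1, h2]
    · intro v hv
      left
      rw [List.mem_append] at hv
      rcases hv with hv | hv
      · have h1 := h4 v hv
        unfold adE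
        simp [h1]
      · have h1 := mem_extra.1 hv
        have h2 : v.2.1 ≠ c := by omega
        unfold adE
        simp [h1.1, h2]

end Pool.Agent.Y605.BX
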