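import Pool.Agent.Y605.BX.Near
import Pool.Agent.Y605.BX.Join
import Pool.Agent.Y605.BX.Five

/-!
# The reduction for all dimensions
-/

set_option autoImplicit false

namespace Pool.Agent.Y605.BX

open Pool.Agent.NPC Pool.Agent.NPC.H632 Pool.Agent.H557R2.Tri Pool.Agent.H692R2
open Pool.Agent.H43R3.SN Pool.Agent.NPC.SNP Pool.Agent.TH656 Pool.Agent.TH656.Bx

/-- The graph with `2 c` additional vertices. -/
def grE (c : ℕ) (a : List ℕ) (b B : ℕ) : FinGraph := lgraph (vl a b B ++ extra c) (adE (ad b B))

section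

variable {a : List ℕ} {b B : ℕ}

theorem vl_ne4 : ∀ v ∈ vl a b B, v.1 ≠ 4 := by
  intro v hv
  rcases mem_vl.1 hv with h | h | h | h
  · omega
  · rw [h]
    norm_num
  · omega
  · omega

theorem grE_iff (c d : ℕ) :
    HasBoxRep (grE c a b B).graph (d + c) ↔ HasBoxRep (gr a b B).graph d :=
  extra_iff (nodup_vl a b B) vl_ne4 c

theorem grE_le4 (c : ℕ) :
    boxicity (grE c a b B).graph ≤ 4 + c ↔ boxicity (gr a b B).graph ≤ 4 := by
  rw [boxicity_le_iff, boxicity_le_iff]
  exact grE_iff c 4

theorem grE_le5 (c : ℕ) (hb : 1 ≤ b) (hB : 1 ≤ B) : boxicity (grE c a b B).graph ≤ 5 + c :=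
  boxicity_le_iff.2 ((grE_iff c 5).2 (five hb hB))

/-- The numbers of the vertices of the paths. -/
def num (a : List ℕ) (b B : ℕ) (v : TH656.Vt) : ℕ :=
  if v.1 = 2 then v.2.1 else b * (6 * B + 1) + 2 + (v.2.1 * W a + v.2.2)

theorem path_mem {c : ℕ} {v : TH656.Vt} (hv : v ∈ vl a b B ++ extra c) (h : ¬ (v.1 ≤ 1 ∨ v.1 = 4)) :
    (v.1 = 2 ∧ v.2.1 ≤ b * (6 * B + 1) ∧ v.2.2 = 0) ∨
    (v.1 = 3 ∧ v.2.1 < a.length ∧ v.2.2 < 3 * a.getD v.2.1 0) := by
  rw [List.mem_append] at hv
  rcases hv with hv | hv
  · rcases mem_vl.1 hv with h1 | h1 | h1 | h1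
    · exact absurd (Or.inl (by omega)) h
    · exact absurd (Or.inl (by rw [h1])) h
    · exact Or.inl h1
    · exact Or.inr h1
  · exact absurd (Or.inr (mem_extra.1 hv).1) h

theorem hub_mem {c : ℕ} {v : TH656.Vt} (hv : v ∈ vl a b B ++ extra c) (h : v.1 ≤ 1 ∨ v.1 = 4) :
    v ∈ hubs ++ extra c := by
  rw [List.mem_append] at hv ⊢
  rcases hv with hv | hv
  · left
    obtain ⟨n, i, j⟩ := v
    rcases mem_vl.1 hv with h1 | h1 | h1 | h1
    · obtain ⟨rfl, h5, h6⟩ := h1
      dsimp only at h5 h6
      interval_cases i <;> interval_cases j <;> decide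
    · rw [h1]
      decide
    · have := h1.1
      dsimp only at this h
      omega
    · have := h1.1
      dsimp only at this h
      omega
  · exact Or.inr hv

theorem near (c : ℕ) (a : List ℕ) (b B : ℕ) : NearPaths (grE c a b B).graph (10 + 2 * c) := by
  classical
  have hn : (vl a b B ++ extra c).Nodup := nodup_ext (nodup_vl a b B) vl_ne4 c
  have hinj : Function.Injective (fun i : Fin (vl a b B ++ extra c).length =>
      (vl a b B ++ extra c).get i) := fun i j h => (List.Nodup.get_inj_iff hn).1 h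
  have key : NearPaths (V := Fin (vl a b B ++ extra c).length)
      (lgraph (vl a b B ++ extra c) (adE (ad b B))).graph (10 + 2 * c) := by
    refine ⟨Finset.univ.filter (fun i => ((vl a b B ++ extra c).get i).1 ≤ 1 ∨
      ((vl a b B ++ extra c).get i).1 = 4), fun i => num a b B ((vl a b B ++ extra c).get i),
      ?_, ?_, ?_⟩
    · have h1 : (Finset.univ.filter (fun i => ((vl a b B ++ extra c).get i).1 ≤ 1 ∨
          ((vl a b B ++ extra c).get i).1 = 4)).card ≤ (hubs ++ extra c).toFinset.card := by
        refine Finset.card_le_card_of_injOn (fun i => (vl a b B ++ extra c).get i) ?_ ?_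
        · intro i hi
          rw [Finset.mem_coe, Finset.mem_filter] at hi
          rw [Finset.mem_coe, List.mem_toFinset]
          exact hub_mem (List.get_mem _ _) hi.2
        · intro i _ j _ h
          exact hinj h
      have h2 := (hubs ++ extra c).toFinset_card_le
      rw [List.length_append, length_extra] at h2
      have h3 : hubs.length = 10 := rfl
      omega
    · intro u v hu hv huv
      rw [Finset.mem_filter, not_and] at hu hv
      have hu' := path_mem (List.get_mem _ _) (hu (Finset.mem_univ _))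
      have hv' := path_mem (List.get_mem _ _) (hv (Finset.mem_univ _))
      apply hinj
      dsimp only at huv ⊢
      generalize (vl a b B ++ extra c).get u = x at *
      generalize (vl a b B ++ extra c).get v = y at *
      obtain ⟨n, i, j⟩ := x
      obtain ⟨n', i', j'⟩ := y
      dsimp only at hu' hv'
      rcases hu' with ⟨rfl, h1, rfl⟩ | ⟨rfl, h1, h2⟩ <;>
        rcases hv' with ⟨rfl, h1', rfl⟩ | ⟨rfl, h1', h2'⟩
      · simp only [num, if_true] at huv
        rw [huv]
      · simp [num] at huv
        omega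
      · simp [num] at huv
        omega
      · simp [num] at huv
        rcases lt_trichotomy i i' with hii | hii | hii
        · have := item_lt hii h2
          omega
        · subst hii
          have : j = j' := by omega
          rw [this]
        · have := item_lt hii h2'
          omega
    · intro u v hu hv huv
      rw [Finset.mem_filter, not_and] at hu hv
      have hu' := path_mem (List.get_mem _ _) (hu (Finset.mem_univ _))
      have hv' := path_mem (List.get_mem _ _) (hv (Finset.mem_univ _))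
      have hadj := ((lgraph_adj (l := vl a b B ++ extra c) (ad := adE (ad b B)) u v).1 huv).2
      dsimp only
      generalize (vl a b B ++ extra c).get u = x at *
      generalize (vl a b B ++ extra c).get v = y at *
      obtain ⟨n, i, j⟩ := x
      obtain ⟨n', i', j'⟩ := y
      dsimp only at hu' hv'
      have hadj2 : Adj b B (n, i, j) (n', i', j') := by
        have e1 : n ≠ 4 := by omega
        have e2 : n' ≠ 4 := by omega
        unfold adE at hadj
        simp only [e1, e2, decide_false, Bool.not_false, Bool.false_and, Bool.true_and,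
          Bool.false_or] at hadj
        exact hadj
      rcases hu' with ⟨rfl, h1, rfl⟩ | ⟨rfl, h1, h2⟩ <;>
        rcases hv' with ⟨rfl, h1', rfl⟩ | ⟨rfl, h1', h2'⟩
      · rw [adj_ff] at hadj2
        simp only [num, if_true]
        omega
      · exact absurd hadj2 adj_fi
      · exact absurd hadj2.symm adj_fi
      · rw [adj_ii] at hadj2
        obtain ⟨rfl, h⟩ := hadj2
        simp [num]
        omega
  exact key

end

section Gen

variable {α : Type} [TEnc α]

theorem poly_adE {b B : α → ℕ} (hb : Poly b) (hB : Poly B) :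
    Poly (fun p : α × TH656.Vt × TH656.Vt => adE (ad (b p.1) (B p.1)) p.2.1 p.2.2) := by
  unfold adE
  refine NPC.Poly.or ?_ (NPC.Poly.and ?_ (poly_ad hb hB))
  · fun_prop
  · fun_prop

theorem poly_grE (c : ℕ) {a : α → List ℕ} {b B M : α → ℕ} (ha : Poly a) (hb : UPoly b)
    (hB : UPoly B) (hM : UPoly M) (h : ∀ x i, (a x).getD i 0 ≤ M x) :
    Poly (fun x => grE c (a x) (b x) (B x)) := by
  unfold grE
  exact poly_lgraph (NPC.Poly.append (poly_vl ha hb hB hM h) (NPC.Poly.const _))
    (poly_adE hb.toPoly hB.toPoly)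

end Gen

/-- The graph of an instance of exact cover by 3-sets. -/
noncomputable def redE (c : ℕ) (I : List (ℕ × ℕ × ℕ) × ℕ) : FinGraph :=
  if tst I then grE c (sizes (clip I)) (bb (clip I)) (BB (clip I)) else grE c [2] 1 1

theorem poly_redE (c : ℕ) : Poly (redE c) := by
  unfold redE
  refine NPC.Poly.ite (p := tst) poly_tst ?_ (NPC.Poly.const _)
  exact poly_grE c (poly_sizes.comp poly_clip) ubb uBB (UPoly.mul ubb uBB) fun I i =>
    (getD_le_sum _ i).trans (clip_tst I).1.le

theorem near_redE (c : ℕ) (I : List (ℕ × ℕ × ℕ) × ℕ) : NearPaths (redE c I).graph (10 + 2 * c) := by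
  by_cases h : tst I
  · have hr : redE c I = grE c (sizes (clip I)) (bb (clip I)) (BB (clip I)) := by
      unfold redE
      rw [if_pos h]
    rw [hr]
    exact near c _ _ _
  · have hr : redE c I = grE c [2] 1 1 := by
      unfold redE
      rw [if_neg h]
    rw [hr]
    exact near c _ _ _

theorem redE_five (c : ℕ) (I : List (ℕ × ℕ × ℕ) × ℕ) (hI : Pr I.1 I.2) :
    boxicity (redE c I).graph ≤ 5 + c := by
  have hbd : Pool.Agent.NPC.SNP.bd I = I := by
    unfold Pool.Agent.NPC.SNP.bd
    rw [Nat.min_eq_left (q_le hI)]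
  have hb : 1 ≤ bb I := by
    have := hI.ne
    have h2 : 0 < I.1.length := List.length_pos_iff.2 this
    unfold bb
    omega
  have hB : 1 ≤ BB I := by
    unfold BB MM
    omega
  by_cases h : tst I
  · have hc : clip I = I := by
      unfold clip
      rw [if_pos h, hbd]
    have hr : redE c I = grE c (sizes I) (bb I) (BB I) := by
      unfold redE
      rw [if_pos h, hc]
    rw [hr]
    exact grE_le5 c hb hB
  · have hr : redE c I = grE c [2] 1 1 := by
      unfold redE
      rw [if_neg h]
    rw [hr]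
    exact grE_le5 c le_rfl le_rfl

theorem redE_correct (c : ℕ) (I : List (ℕ × ℕ × ℕ) × ℕ) (hI : Pr I.1 I.2) :
    X3C I ↔ boxicity (redE c I).graph ≤ 4 + c := by
  rw [red_correct I hI]
  by_cases h : tst I
  · have hr : redE c I = grE c (sizes (clip I)) (bb (clip I)) (BB (clip I)) := by
      unfold redE
      rw [if_pos h]
    have hr2 : Bx.red I = gr (sizes (clip I)) (bb (clip I)) (BB (clip I)) := by
      unfold Bx.red
      rw [if_pos h]
    rw [hr, hr2]
    exact (grE_le4 c).symm
  · have hr : redE c I = grE c [2] 1 1 := by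
      unfold redE
      rw [if_neg h]
    have hr2 : Bx.red I = gr [2] 1 1 := by
      unfold Bx.red
      rw [if_neg h]
    rw [hr, hr2]
    exact (grE_le4 c).symm

/-- The properties of all instances. -/
theorem hardE (c : ℕ) : HardPr
    (fun G : FinGraph => NearPaths G.graph (10 + 2 * c) ∧ boxicity G.graph ≤ 5 + c)
    (fun G => boxicity G.graph ≤ 4 + c) :=
  hardPr_X3Cr.trans (poly_redE c) (fun I hI => ⟨near_redE c I, redE_five c I hI⟩) (redE_correct c)

/-- The reduction. -/
theorem reduction (d : ℕ) (hd : 4 ≤ d) (L : Set (List Bool)) (hL : InNP L) :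
    ∃ f : List Bool → FinGraph, PolyTime (fun x => bits (f x)) ∧
      ∀ x, NearPaths (f x).graph (2 * d + 2) ∧ pathwidth (f x).graph ≤ 2 * d + 3 ∧
        treewidth (f x).graph ≤ 2 * d + 3 ∧ (x ∈ L → boxicity (f x).graph ≤ d) ∧
        (x ∉ L → boxicity (f x).graph = d + 1) := by
  obtain ⟨c, rfl⟩ : ∃ c, d = 4 + c := ⟨d - 4, by omega⟩
  obtain ⟨f, hf, h1, h2⟩ := hardE c L hL
  refine ⟨f, PC.toPolyTime hf, fun x => ?_⟩
  have hnear : NearPaths (f x).graph (2 * (4 + c) + 2) := by
    have h := (h1 x).1
    rwa [show 10 + 2 * c = 2 * (4 + c) + 2 by ring] at h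
  refine ⟨hnear, hnear.pathwidth_le, hnear.treewidth_le, (h2 x).1, fun hx => ?_⟩
  have h3 : ¬ boxicity (f x).graph ≤ 4 + c := fun h => hx ((h2 x).2 h)
  have h4 := (h1 x).2
  omega

/-- The decision problems. -/
theorem hard_near (d : ℕ) (hd : 4 ≤ d) (k : ℕ) (hk : 2 * d + 2 ≤ k) :
    NPHardP (fun G : FinGraph => NearPaths G.graph k ∧ boxicity G.graph ≤ d) := by
  obtain ⟨c, rfl⟩ : ∃ c, d = 4 + c := ⟨d - 4, by omega⟩
  exact ((hardE c).trans (Pr' := fun _ => True)
    (Q := fun G : FinGraph => NearPaths G.graph k ∧ boxicity G.graph ≤ 4 + c)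
    (f := fun G => G) NPC.Poly.id (fun _ _ => trivial)
    (fun G hG => ⟨fun h => ⟨hG.1.mono (by omega), h⟩, fun h => h.2⟩)).toHardI.toNPHardP

end Pool.Agent.Y605.BX
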