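import Pool.Agent.TH656.Bx.Red

/-!
# Graphs that are a few vertices away from a disjoint union of paths
-/

set_option autoImplicit false

namespace Pool.Agent.Y605.BX

open Pool.Agent.TH656 Pool.Agent.TH656.Bx

/-- `G` becomes a disjoint union of paths if at most `k` vertices are deleted: the other vertices
have different numbers such that adjacent ones have consecutive numbers. -/
def NearPaths {V : Type} (G : SimpleGraph V) (k : ℕ) : Prop :=
  ∃ (S : Finset V) (f : V → ℕ), S.card ≤ k ∧
    (∀ u v, u ∉ S → v ∉ S → f u = f v → u = v) ∧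
    ∀ u v, u ∉ S → v ∉ S → G.Adj u v → f u = f v + 1 ∨ f v = f u + 1

/-- The bags `X 0, ..., X (n - 1)` are a path decomposition of `G`. -/
def IsPathDecomposition {V : Type} (G : SimpleGraph V) (n : ℕ) (X : ℕ → Finset V) : Prop :=
  (∀ v, ∃ i < n, v ∈ X i) ∧ (∀ u v, G.Adj u v → ∃ i < n, u ∈ X i ∧ v ∈ X i) ∧
    ∀ i j k, i ≤ j → j ≤ k → k < n → ∀ v, v ∈ X i → v ∈ X k → v ∈ X j

/-- The pathwidth. -/
noncomputable def pathwidth {V : Type} (G : SimpleGraph V) : ℕ :=
  sInf {w | ∃ n X, IsPathDecomposition G n X ∧ ∀ i < n, (X i).card ≤ w + 1}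

variable {V : Type} [Fintype V] {G : SimpleGraph V} {k : ℕ}

theorem NearPaths.mono {l : ℕ} (h : NearPaths G k) (hkl : k ≤ l) : NearPaths G l := by
  obtain ⟨S, f, h1, h2⟩ := h
  exact ⟨S, f, h1.trans hkl, h2⟩

theorem NearPaths.pathwidth_le (h : NearPaths G k) : pathwidth G ≤ k + 1 := by
  classical
  obtain ⟨S, f, h1, h2, h3⟩ := h
  apply Nat.sInf_le
  have hb : ∀ v, f v < ∑ u, f u + 1 := fun v =>
    Nat.lt_succ_of_le (Finset.single_le_sum (f := f) (fun _ _ => Nat.zero_le _) (Finset.mem_univ v))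
  refine ⟨∑ u, f u + 1,
    fun i => S ∪ Finset.univ.filter (fun v => v ∉ S ∧ (f v = i ∨ f v = i + 1)),
    ⟨?_, ?_, ?_⟩, ?_⟩
  · intro v
    by_cases hv : v ∈ S
    · exact ⟨0, by omega, Finset.mem_union_left _ hv⟩
    · refine ⟨f v, hb v, Finset.mem_union_right _ ?_⟩
      rw [Finset.mem_filter]
      exact ⟨Finset.mem_univ _, hv, Or.inl rfl⟩
  · intro u v huv
    by_cases hu : u ∈ S
    · by_cases hv : v ∈ S
      · exact ⟨0, by omega, Finset.mem_union_left _ hu, Finset.mem_union_left _ hv⟩
      · refine ⟨f v, hb v, Finset.mem_union_left _ hu, Finset.mem_union_right _ ?_⟩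
        rw [Finset.mem_filter]
        exact ⟨Finset.mem_univ _, hv, Or.inl rfl⟩
    · by_cases hv : v ∈ S
      · refine ⟨f u, hb u, Finset.mem_union_right _ ?_, Finset.mem_union_left _ hv⟩
        rw [Finset.mem_filter]
        exact ⟨Finset.mem_univ _, hu, Or.inl rfl⟩
      · rcases h3 u v hu hv huv with h | h
        · refine ⟨f v, hb v, Finset.mem_union_right _ ?_, Finset.mem_union_right _ ?_⟩
          · rw [Finset.mem_filter]
            exact ⟨Finset.mem_univ _, hu, Or.inr h⟩
          · rw [Finset.mem_filter]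
            exact ⟨Finset.mem_univ _, hv, Or.inl rfl⟩
        · refine ⟨f u, hb u, Finset.mem_union_right _ ?_, Finset.mem_union_right _ ?_⟩
          · rw [Finset.mem_filter]
            exact ⟨Finset.mem_univ _, hu, Or.inl rfl⟩
          · rw [Finset.mem_filter]
            exact ⟨Finset.mem_univ _, hv, Or.inr h⟩
  · intro i j l hij hjl _ v hi hl
    rw [Finset.mem_union, Finset.mem_filter] at hi hl ⊢
    rcases hi with hi | hi
    · exact Or.inl hi
    · rcases hl with hl | hl
      · exact Or.inl hl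
      · refine Or.inr ⟨Finset.mem_univ _, hi.2.1, ?_⟩
        have := hi.2.2
        have := hl.2.2
        omega
  · intro i _
    refine (Finset.card_union_le _ _).trans ?_
    have hc : (Finset.univ.filter (fun v => v ∉ S ∧ (f v = i ∨ f v = i + 1))).card ≤ 2 := by
      refine (Finset.card_le_card_of_injOn (t := {i, i + 1}) f ?_ ?_).trans Finset.card_le_two
      · intro v hv
        rw [Finset.mem_coe, Finset.mem_filter] at hv
        rw [Finset.mem_coe, Finset.mem_insert, Finset.mem_singleton]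
        exact hv.2.2
      · intro u hu v hv huv
        rw [Finset.mem_coe, Finset.mem_filter] at hu hv
        exact h2 u v hu.2.1 hv.2.1 huv
    omega

/-- The chordal supergraph. -/
def supG (G : SimpleGraph V) (S : Finset V) : SimpleGraph V where
  Adj i j := i ≠ j ∧ (i ∈ S ∨ j ∈ S ∨ G.Adj i j)
  symm := ⟨fun i j h => ⟨h.1.symm, by
    rcases h.2 with h2 | h2 | h2
    · exact Or.inr (Or.inl h2)
    · exact Or.inl h2
    · exact Or.inr (Or.inr h2.symm)⟩⟩
  loopless := ⟨fun i h => h.1 rfl⟩

theorem chordal_supG {S : Finset V} {f : V → ℕ}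
    (h2 : ∀ u v, u ∉ S → v ∉ S → f u = f v → u = v)
    (h3 : ∀ u v, u ∉ S → v ∉ S → G.Adj u v → f u = f v + 1 ∨ f v = f u + 1) :
    Chordal (supG G S) := by
  intro n hn
  refine ⟨fun φ => ?_⟩
  obtain ⟨k, rfl⟩ : ∃ k, n = k + 4 := ⟨n - 4, by omega⟩
  have hadj : ∀ x y : Fin (k + 4), (supG G S).Adj (φ x) (φ y) ↔ x - y = 1 ∨ y - x = 1 := by
    intro x y
    rw [φ.map_adj_iff]
    exact SimpleGraph.cycleGraph_adj
  obtain ⟨h10, h20, h30⟩ := fin_facts k
  have hpath : ∀ x : Fin (k + 4), φ x ∉ S := by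
    intro x hc
    have h1 : (supG G S).Adj (φ x) (φ (x + (1 + 1))) := by
      refine ⟨?_, Or.inl hc⟩
      intro h2
      have h3 := φ.injective h2
      apply h20
      have h4 : x + 0 = x + (1 + 1) := by rw [add_zero]; exact h3
      exact (add_left_cancel h4).symm
    rw [hadj] at h1
    rcases h1 with h1 | h1
    · apply h30
      have e : x - (x + (1 + 1)) = - (1 + 1) := by abel
      rw [e] at h1
      have h2 : (1 : Fin (k + 4)) + (1 + 1) = 0 := by
        nth_rewrite 1 [← h1]
        abel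
      rw [add_assoc]
      exact h2
    · apply h10
      have e : x + (1 + 1) - x = 1 + 1 := by abel
      rw [e] at h1
      exact add_left_cancel (h1.trans (add_zero 1).symm)
  obtain ⟨x, hx⟩ := Finite.exists_max (fun x : Fin (k + 4) => f (φ x))
  have hpa : ∀ y, (supG G S).Adj (φ x) (φ y) → f (φ x) = f (φ y) + 1 ∨ f (φ y) = f (φ x) + 1 := by
    intro y hy
    rcases hy.2 with h1 | h1 | h1
    · exact absurd h1 (hpath x)
    · exact absurd h1 (hpath y)
    · exact h3 _ _ (hpath x) (hpath y) h1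
  have g1 := hpa (x + 1) ((hadj _ _).2 (Or.inr (by abel)))
  have g2 := hpa (x - 1) ((hadj _ _).2 (Or.inl (by abel)))
  have g3 := hx (x + 1)
  have g4 := hx (x - 1)
  have h6 : φ (x + 1) = φ (x - 1) := h2 _ _ (hpath _) (hpath _) (by omega)
  have h7 := φ.injective h6
  apply h20
  have e : (1 : Fin (k + 4)) + 1 = (x + 1) - (x - 1) := by abel
  rw [e, h7]
  abel

theorem NearPaths.treewidth_le (h : NearPaths G k) : treewidth G ≤ k + 1 := by
  classical
  obtain ⟨S, f, h1, h2, h3⟩ := h
  refine Pool.Agent.TH656.Bx.treewidth_le (H := supG G S) ?_ (chordal_supG h2 h3) ?_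
  · intro u v huv
    exact ⟨huv.ne, Or.inr (Or.inr huv)⟩
  · obtain ⟨s, hs⟩ := (supG G S).exists_isNClique_cliqueNum
    have c1 : (s.filter (fun v => v ∈ S)).card ≤ k :=
      (Finset.card_le_card (fun v hv => (Finset.mem_filter.1 hv).2)).trans h1
    have c2 : (s.filter (fun v => v ∉ S)).card ≤ 2 := by
      by_contra hc
      rw [not_le] at hc
      obtain ⟨x, hx, y, hy, z, hz, hxy, hxz, hyz⟩ := Finset.two_lt_card.1 hc
      have key : ∀ x ∈ s.filter (fun v => v ∉ S), ∀ y ∈ s.filter (fun v => v ∉ S), x ≠ y →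
          (f x = f y + 1 ∨ f y = f x + 1) := by
        intro x hx y hy hxy
        rw [Finset.mem_filter] at hx hy
        have h5 := hs.1 hx.1 hy.1 hxy
        rcases h5.2 with h6 | h6 | h6
        · exact absurd h6 hx.2
        · exact absurd h6 hy.2
        · exact h3 _ _ hx.2 hy.2 h6
      have k1 := key x hx y hy hxy
      have k2 := key x hx z hz hxz
      have k3 := key y hy z hz hyz
      omega
    have c3 := Finset.card_filter_add_card_filter_not (s := s) (fun v => v ∈ S)
    have c4 := hs.2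
    omega

end Pool.Agent.Y605.BX
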